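import Mathlib
import Pool.Agent.H16.Tysz

set_option autoImplicit false

namespace Pool.Agent.Results.MP_80f852_al.Yes

theorem result (n : ℕ) (x : Fin n → ℤ) : ∃ y : Fin n → ℤ, (∀ i, |y i| ≤ 2 ^ (n - 1)) ∧
    (∀ i, x i = 1 → y i = 1) ∧ ∀ i j k, x k = x i + x j → y k = y i + y j :=
  Pool.Agent.H16.Tysz.main n x

end Pool.Agent.Results.MP_80f852_al.Yes
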